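import Pool.Agent.Helper80.NFix.Main

/-! Every semitopological semigroup `S` such that `WAP(S)` has a left invariant mean has
property (F). -/

open Pool.Agent.Helper80.NFix
open scoped BoundedContinuousFunction

namespace Pool.Agent.Results.MP_c68506_an.NonexpansiveWAP

universe u v w

theorem result (S : Type u) [Semigroup S] [TopologicalSpace S] [T2Space S]
    [SeparatelyContinuousMul S] (hS : ∃ m : (S →ᵇ ℝ) → ℝ, IsLeftInvariantMean m) :
    PropertyF.{u, v, w} S := by
  obtain ⟨m, hm⟩ := hS
  exact main S m hm

end Pool.Agent.Results.MP_c68506_an.NonexpansiveWAP
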